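import Pool.Agent.Helper44.TOT.Defs

/-!
# TOT-W3x: GGavg from FFprops
-/

set_option autoImplicit false

namespace Pool.Agent.Helper83.TOT

open Pool.Agent.Helper44.TOT Finset

noncomputable section

theorem wsum_eq_sum (G : ℕ → ℝ) (n : ℕ) :
    wsum G n = n.factorization.sum (fun q v => (v : ℝ) * Real.log q * G q) := rfl

theorem wsum_mul (G : ℕ → ℝ) {a b : ℕ} (ha : a ≠ 0) (hb : b ≠ 0) :
    wsum G (a * b) = wsum G a + wsum G b := by
  rw [wsum_eq_sum, wsum_eq_sum, wsum_eq_sum, Nat.factorization_mul ha hb,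
    Finsupp.sum_add_index']
  · intro q; simp
  · intro q v w; push_cast; ring

theorem wsum_prime (G : ℕ → ℝ) {p : ℕ} (hp : p.Prime) : wsum G p = Real.log p * G p := by
  rw [wsum_eq_sum, hp.factorization, Finsupp.sum_single_index]
  · push_cast; ring
  · simp

theorem wsum_one (G : ℕ → ℝ) : wsum G 1 = 0 := by
  rw [wsum_eq_sum, Nat.factorization_one, Finsupp.sum_zero_index]

theorem wsum_const (c : ℝ) (n : ℕ) : wsum (fun _ => c) n = c * Real.log n := by
  rw [Real.log_nat_eq_sum_factorization, wsum_eq_sum, Finsupp.mul_sum]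
  exact Finset.sum_congr rfl (fun q _ => by ring)

theorem wsum_mono {G H : ℕ → ℝ} {n : ℕ} (h : ∀ q ∈ n.primeFactors, G q ≤ H q) :
    wsum G n ≤ wsum H n :=
  Finset.sum_le_sum (fun q hq => mul_le_mul_of_nonneg_left (h q hq)
    (mul_nonneg (Nat.cast_nonneg _) (Real.log_natCast_nonneg q)))

theorem wsum_nonneg {G : ℕ → ℝ} {n : ℕ} (h : ∀ q ∈ n.primeFactors, 0 ≤ G q) :
    0 ≤ wsum G n :=
  Finset.sum_nonneg (fun q hq => mul_nonneg
    (mul_nonneg (Nat.cast_nonneg _) (Real.log_natCast_nonneg q)) (h q hq))

theorem wsum_add (G H : ℕ → ℝ) (n : ℕ) :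
    wsum (fun q => G q + H q) n = wsum G n + wsum H n := by
  unfold wsum
  rw [← Finset.sum_add_distrib]
  exact Finset.sum_congr rfl (fun q _ => by ring)

theorem wsum_div (G : ℕ → ℝ) (D : ℝ) (n : ℕ) :
    wsum (fun q => G q / D) n = wsum G n / D := by
  unfold wsum
  rw [Finset.sum_div]
  exact Finset.sum_congr rfl (fun q _ => by ring)

/-- the number of prime factors with multiplicity -/
theorem two_le_om {n : ℕ} (h2 : 2 ∣ n) (h4 : 4 ≤ n) : 2 ≤ wsum (fun q => 1 / Real.log q) n := by
  obtain ⟨m, rfl⟩ := h2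
  have hl2 : 0 < Real.log 2 := Real.log_pos one_lt_two
  rw [wsum_mul _ two_ne_zero (by omega), wsum_prime _ Nat.prime_two]
  have h1 : Real.log ((2 : ℕ) : ℝ) * (1 / Real.log ((2 : ℕ) : ℝ)) = 1 := by
    push_cast
    field_simp
  rw [h1]
  obtain ⟨q, hq, hqm⟩ := Nat.exists_prime_and_dvd (show m ≠ 1 by omega)
  have h3 : q ∈ m.primeFactors := Nat.mem_primeFactors.mpr ⟨hq, hqm, by omega⟩
  have h5 : 1 ≤ wsum (fun q => 1 / Real.log q) m := by
    unfold wsum
    have hterm : ∀ r ∈ m.primeFactors, (0 : ℝ) ≤
        (m.factorization r : ℝ) * Real.log r * (1 / Real.log r) := fun r _ => by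
      have := Real.log_natCast_nonneg r
      positivity
    refine le_trans ?_ (Finset.single_le_sum hterm h3)
    have h6 : 1 ≤ m.factorization q := (hq.dvd_iff_one_le_factorization (by omega)).mp hqm
    have h7 : (1 : ℝ) ≤ m.factorization q := by exact_mod_cast h6
    have h8 : Real.log q ≠ 0 := (Real.log_pos (by exact_mod_cast hq.one_lt)).ne'
    rw [mul_assoc, mul_one_div_cancel h8, mul_one]
    exact h7
  linarith

theorem gGavg (hF : FFprops) : GGavg := by
  obtain ⟨f1, f2, f3, f4, f5⟩ := hF
  have a1 : ∀ n : ℕ, 1 ≤ n → (FF n : ℝ) = wsum gg n := by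
    intro n
    induction n using Nat.strong_induction_on with
    | _ n ih =>
    intro hn
    rcases Nat.lt_or_ge n 2 with h | h
    · have : n = 1 := by omega
      rw [this, f1, wsum_one, Nat.cast_zero]
    · have hp := Nat.minFac_prime (show n ≠ 1 by omega)
      obtain ⟨m, hm⟩ := Nat.minFac_dvd n
      have hm1 : 1 ≤ m := by
        rcases Nat.eq_zero_or_pos m with h0 | h0
        · rw [h0, mul_zero] at hm; omega
        · exact h0
      have hmn : m < n := by
        have := hp.two_le
        nlinarith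
      have e1 : FF n = FF n.minFac + FF m := by
        rw [← f4 _ _ hp.one_lt.le hm1, ← hm]
      have e2 : wsum gg n = Real.log n.minFac * gg n.minFac + wsum gg m := by
        rw [← wsum_prime gg hp, ← wsum_mul gg hp.ne_zero (by omega), ← hm]
      have e3 : Real.log n.minFac * gg n.minFac = FF n.minFac := by
        have : Real.log n.minFac ≠ 0 := (Real.log_pos (by exact_mod_cast hp.one_lt)).ne'
        unfold gg
        field_simp
      rw [e1, e2, e3, ← ih m hmn hm1]
      push_cast
      ring
  have a2 : ∀ q : ℕ, 2 ≤ q → 0 ≤ gg q ∧ gg q ≤ 3 / 2 := by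
    intro q hq
    have hlq : 0 < Real.log q := Real.log_pos (by exact_mod_cast hq)
    have hl2 : 0.6931471803 < Real.log 2 := Real.log_two_gt_d9
    refine ⟨div_nonneg (Nat.cast_nonneg _) hlq.le, ?_⟩
    unfold gg
    rw [div_le_iff₀ hlq]
    refine ((f5 q (by omega)).1).trans ?_
    rw [div_le_iff₀ (by linarith)]
    nlinarith
  have a0 : ∀ p : ℕ, p.Prime → 3 ≤ p → gg p * Real.log p = wsum gg (p - 1) := by
    intro p hp h3
    have hlp : Real.log p ≠ 0 := (Real.log_pos (by exact_mod_cast hp.one_lt)).ne'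
    rw [← a1 (p - 1) (by omega), ← f3 p hp h3]
    unfold gg
    field_simp
  refine ⟨a1, a2, ?_, ?_⟩
  · intro t D ht hD p hp hp5
    have hlp : 0 < Real.log p := Real.log_pos (by exact_mod_cast hp.one_lt)
    rw [wsum_div, div_mul_eq_mul_div]
    refine div_le_div_of_nonneg_right ?_ hD.le
    rcases le_or_gt (gg p - t) 0 with h | h
    · rw [max_eq_left h, zero_mul]
      exact wsum_nonneg (fun q _ => le_max_left _ _)
    · rw [max_eq_right h.le]
      have e1 : wsum (fun q => gg q + -t) (p - 1) ≤ wsum (fun q => max 0 (gg q - t)) (p - 1) :=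
        wsum_mono (fun q _ => by
          have := le_max_right 0 (gg q - t)
          linarith)
      refine le_trans ?_ e1
      rw [wsum_add, wsum_const, ← a0 p hp (by omega)]
      have h1 : Real.log ((p - 1 : ℕ) : ℝ) ≤ Real.log p := by
        refine Real.log_le_log ?_ (by exact_mod_cast Nat.sub_le p 1)
        have : 0 < p - 1 := by omega
        exact_mod_cast this
      nlinarith
  · intro t D ht ht2 hD p hp hp5
    have hlp : 0 < Real.log p := Real.log_pos (by exact_mod_cast hp.one_lt)
    rw [wsum_div, div_mul_eq_mul_div]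
    refine div_le_div_of_nonneg_right ?_ hD.le
    rcases le_or_gt (t - gg p + 1 / Real.log p) 0 with h | h
    · rw [max_eq_left h, zero_mul]
      exact wsum_nonneg (fun q _ => le_max_left _ _)
    · rw [max_eq_right h.le]
      have e1 : wsum (fun q => (t + 1 / Real.log q) + (-1 : ℝ) * gg q) (p - 1) ≤
          wsum (fun q => max 0 (t - gg q + 1 / Real.log q)) (p - 1) :=
        wsum_mono (fun q _ => by
          have := le_max_right 0 (t - gg q + 1 / Real.log q)
          linarith)
      refine le_trans ?_ e1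
      have e2 : wsum (fun q => (-1 : ℝ) * gg q) (p - 1) = -(gg p * Real.log p) := by
        rw [a0 p hp (by omega)]
        unfold wsum
        rw [← Finset.sum_neg_distrib]
        exact Finset.sum_congr rfl (fun q _ => by ring)
      rw [wsum_add, wsum_add, wsum_const, e2]
      have hom : 2 ≤ wsum (fun q => 1 / Real.log q) (p - 1) := by
        refine two_le_om ?_ (by omega)
        have h2 := hp.eq_two_or_odd
        omega
      have hn4 : (4 : ℝ) ≤ ((p - 1 : ℕ) : ℝ) := by
        have : 4 ≤ p - 1 := by omega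
        exact_mod_cast this
      have hpn : (p : ℝ) = ((p - 1 : ℕ) : ℝ) + 1 := by
        have : p = (p - 1) + 1 := by omega
        exact_mod_cast this
      have h1 : Real.log p ≤ Real.log ((p - 1 : ℕ) : ℝ) + 1 / 4 := by
        have h3 : Real.log p - Real.log ((p - 1 : ℕ) : ℝ) =
            Real.log (p / ((p - 1 : ℕ) : ℝ)) := by
          rw [Real.log_div (by positivity) (by positivity)]
        have h4 : Real.log (p / ((p - 1 : ℕ) : ℝ)) ≤ p / ((p - 1 : ℕ) : ℝ) - 1 := by
          have := Real.add_one_le_exp (Real.log (p / ((p - 1 : ℕ) : ℝ)))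
          rw [Real.exp_log (by positivity)] at this
          linarith
        have h5 : (p : ℝ) / ((p - 1 : ℕ) : ℝ) - 1 ≤ 1 / 4 := by
          rw [div_sub_one (by positivity), div_le_iff₀ (by positivity), hpn]
          linarith
        linarith
      have h2 : 1 / Real.log p * Real.log p = 1 := by field_simp
      have h3 : (t - gg p + 1 / Real.log p) * Real.log p =
          t * Real.log p - gg p * Real.log p + 1 := by
        rw [add_mul, h2]; ring
      rw [h3]
      have h4 : t * Real.log p ≤ t * (Real.log ((p - 1 : ℕ) : ℝ) + 1 / 4) :=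
        mul_le_mul_of_nonneg_left h1 ht
      linarith

end

end Pool.Agent.Helper83.TOT
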