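import Pool.Agent.Helper44.TOT.Defs

/-!
# TOT-W5x: W1 from FM and GGavg
-/

set_option autoImplicit false

namespace Pool.Agent.Helper83.TOT

open Pool.Agent.Helper44.TOT Finset

noncomputable section

theorem FF_prime {p : ℕ} (hp : p.Prime) (h3 : 3 ≤ p) : FF p = FF (p - 1) := by
  rw [FF]
  have h : p.primeFactorsList = [p] := Nat.primeFactorsList_prime hp
  have h2 : ∀ l : List ℕ, (hl : l = [p]) → ∀ f : ℕ → ℕ,
      (l.attach.map (fun q => f q.1)).sum = f p := by
    intro l hl f
    subst hl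
    simp
  have := h2 p.primeFactorsList h (fun q => if h : q = 2 then 1 else FF (q - 1))
  rw [this, dif_neg (by omega)]

/-- sum of `log q / q` over a set of primes which is thin in dyadic blocks -/
theorem dyadic_sum (P : ℕ → Prop) (θ : ℝ) (hθ : 0 ≤ θ) (X1 : ℕ)
    (h1 : ∀ y : ℕ, X1 ≤ y → (blk P y : ℝ) ≤ θ * (y / Real.log y)) :
    ∀ (x : ℕ) (E : Finset ℕ), (∀ q ∈ E, q.Prime ∧ P q ∧ X1 ≤ q ∧ q ≤ x) →
      ∑ q ∈ E, Real.log q / q ≤ 2 * θ * (Real.log x / Real.log 2 + 1) := by
  classical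
  intro x
  induction x using Nat.strong_induction_on with
  | _ x ih =>
  intro E hE
  have hl2 : 0 < Real.log 2 := Real.log_pos one_lt_two
  have hlx : 0 ≤ Real.log x := Real.log_natCast_nonneg x
  have hR : 0 ≤ 2 * θ * (Real.log x / Real.log 2 + 1) := by positivity
  rcases Nat.lt_or_ge x 2 with hx | hx
  · have : E = ∅ := by
      rw [Finset.eq_empty_iff_forall_notMem]
      intro q hq
      have := (hE q hq).1.two_le
      have := (hE q hq).2.2.2
      omega
    rw [this, Finset.sum_empty]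
    exact hR
  rcases Nat.lt_or_ge x X1 with hx1 | hx1
  · have : E = ∅ := by
      rw [Finset.eq_empty_iff_forall_notMem]
      intro q hq
      have := (hE q hq).2.2.1
      have := (hE q hq).2.2.2
      omega
    rw [this, Finset.sum_empty]
    exact hR
  have hxpos : (0 : ℝ) < x := by positivity
  have hlogx : 0 < Real.log x := Real.log_pos (by exact_mod_cast hx)
  rw [← Finset.sum_filter_add_sum_filter_not E (fun q => q ≤ x / 2)]
  have hA := ih (x / 2) (by omega) (E.filter (fun q => q ≤ x / 2)) (fun q hq => by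
    rw [Finset.mem_filter] at hq
    obtain ⟨h1, h2, h3, -⟩ := hE q hq.1
    exact ⟨h1, h2, h3, hq.2⟩)
  have hB : ∑ q ∈ E.filter (fun q => ¬ q ≤ x / 2), Real.log q / q ≤ 2 * θ := by
    have hterm : ∀ q ∈ E.filter (fun q => ¬ q ≤ x / 2), Real.log q / q ≤ 2 * Real.log x / x := by
      intro q hq
      rw [Finset.mem_filter] at hq
      have hq1 := (hE q hq.1).1.one_lt
      have hqx := (hE q hq.1).2.2.2
      have hq2 : x < 2 * q := by omega
      have hqpos : (0 : ℝ) < q := by positivity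
      have hq2' : (x : ℝ) < 2 * q := by exact_mod_cast hq2
      rw [div_le_div_iff₀ hqpos hxpos]
      have hlq : Real.log q ≤ Real.log x := Real.log_le_log hqpos (by exact_mod_cast hqx)
      have hlq0 : 0 ≤ Real.log q := Real.log_natCast_nonneg q
      nlinarith
    have hcard : ((E.filter (fun q => ¬ q ≤ x / 2)).card : ℝ) ≤ blk P x := by
      unfold blk
      exact_mod_cast Finset.card_le_card (fun q hq => by
        rw [Finset.mem_filter] at hq ⊢
        obtain ⟨h1, h2, h3, h4⟩ := hE q hq.1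
        exact ⟨Finset.mem_Ioc.mpr ⟨by omega, h4⟩, h1, h2⟩)
    calc ∑ q ∈ E.filter (fun q => ¬ q ≤ x / 2), Real.log q / q
        ≤ ∑ q ∈ E.filter (fun q => ¬ q ≤ x / 2), 2 * Real.log x / x := Finset.sum_le_sum hterm
      _ = ((E.filter (fun q => ¬ q ≤ x / 2)).card : ℝ) * (2 * Real.log x / x) := by
          rw [Finset.sum_const, nsmul_eq_mul]
      _ ≤ (θ * (x / Real.log x)) * (2 * Real.log x / x) := by
          refine mul_le_mul_of_nonneg_right (hcard.trans (h1 x hx1)) (by positivity)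
      _ = 2 * θ := by
          field_simp
  have hlog : Real.log ((x / 2 : ℕ) : ℝ) ≤ Real.log x - Real.log 2 := by
    rw [← Real.log_div hxpos.ne' two_ne_zero]
    refine Real.log_le_log (by
      have : 0 < x / 2 := by omega
      exact_mod_cast this) ?_
    exact Nat.cast_div_le
  have hC : 2 * θ * (Real.log ((x / 2 : ℕ) : ℝ) / Real.log 2 + 1) ≤
      2 * θ * (Real.log x / Real.log 2) := by
    refine mul_le_mul_of_nonneg_left ?_ (by positivity)
    rw [div_add_one hl2.ne']
    exact (div_le_div_iff_of_pos_right hl2).mpr (by linarith)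
  calc _ ≤ 2 * θ * (Real.log ((x / 2 : ℕ) : ℝ) / Real.log 2 + 1) + 2 * θ := add_le_add hA hB
    _ ≤ 2 * θ * (Real.log x / Real.log 2) + 2 * θ := by linarith
    _ = _ := by ring

/-- the key inequality for one prime -/
theorem wset_ge (hGG : GGavg) {α κ η : ℝ} (hα : α ≤ 3 / 2) (hκ : 0 < κ) (hκ1 : κ ≤ 1)
    (hη : 0 < η) (hηκ : 5 * η / κ ≤ 1 / 40) {x p q0 : ℕ} (E : Finset ℕ)
    (hE : ∀ q : ℕ, q.Prime → q ≤ x → gg q < α - η → q ∈ E)
    (hE' : ∀ q ∈ E, gg q < α - η)
    (hp : p.Prime) (hp5 : 5 ≤ p) (hpx : p ≤ x) (hgp : gg p < α + η)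
    (hq0 : q0.Prime) (hq0p : q0 ∣ p - 1) (hgq : α + κ < gg q0)
    (hq0x : (x : ℝ) ^ (5 * η / κ) < q0)
    (hx : 16 ≤ η * Real.log x * p) :
    η * Real.log x ≤ wset E (p - 1) := by
  obtain ⟨g1, g2, -, -⟩ := hGG
  have hη200 : η ≤ 1 / 200 := by
    rw [div_le_iff₀ hκ] at hηκ
    linarith
  set n := p - 1 with hn
  have hn4 : 4 ≤ n := by omega
  have hpn : (p : ℝ) = n + 1 := by
    have : p = n + 1 := by omega
    rw [this]; push_cast; ring
  have hnpos : (0 : ℝ) < n := by positivity
  have hppos : (0 : ℝ) < p := by positivity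
  have hxpos : (0 : ℝ) < x := by
    have : 0 < x := by omega
    exact_mod_cast this
  have hlogp : 0 < Real.log p := Real.log_pos (by exact_mod_cast hp.one_lt)
  have hlogpx : Real.log p ≤ Real.log x := Real.log_le_log hppos (by exact_mod_cast hpx)
  have hlogx : 0 < Real.log x := lt_of_lt_of_le hlogp hlogpx
  -- `FF (p - 1)`
  have e1 : wsum gg n = gg p * Real.log p := by
    rw [← g1 n (by omega), ← FF_prime hp (by omega)]
    unfold gg
    field_simp
  have e2 : Real.log n = ∑ q ∈ n.primeFactors, (n.factorization q : ℝ) * Real.log q := by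
    rw [Real.log_nat_eq_sum_factorization]
    rfl
  -- the sum of `v log q (gg q - α + η)`
  have e3 : ∑ q ∈ n.primeFactors, (n.factorization q : ℝ) * Real.log q * (gg q - α + η) =
      gg p * Real.log p - (α - η) * Real.log n := by
    rw [← e1, e2, wsum, Finset.mul_sum, ← Finset.sum_sub_distrib]
    exact Finset.sum_congr rfl (fun q _ => by ring)
  have hlogpn : Real.log p ≤ Real.log n + 2 / p := by
    have h1 : Real.log p - Real.log n = Real.log (p / n) := by
      rw [Real.log_div hppos.ne' hnpos.ne']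
    have h2 : Real.log (p / n) ≤ p / n - 1 := by
      have := Real.add_one_le_exp (Real.log (p / n))
      rw [Real.exp_log (by positivity)] at this
      linarith
    have h3 : (p : ℝ) / n - 1 ≤ 2 / p := by
      rw [div_sub_one hnpos.ne', div_le_div_iff₀ hnpos hppos, hpn]
      have : (4 : ℝ) ≤ n := by exact_mod_cast hn4
      nlinarith
    linarith
  have e4 : gg p * Real.log p - (α - η) * Real.log n ≤ 9 / 4 * η * Real.log x := by
    have h1 : gg p * Real.log p ≤ (α + η) * Real.log p :=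
      mul_le_mul_of_nonneg_right hgp.le hlogp.le
    have hαη : 0 ≤ α + η := by
      have := (g2 p hp.two_le).1
      linarith
    have h2 : (α + η) * Real.log p ≤ (α + η) * (Real.log n + 2 / p) :=
      mul_le_mul_of_nonneg_left hlogpn hαη
    have h3 : (α + η) * (2 / p) ≤ 4 / p := by
      rw [mul_div_assoc', div_le_div_iff_of_pos_right hppos]
      linarith
    have h4 : 4 / (p : ℝ) ≤ 1 / 4 * η * Real.log x := by
      rw [div_le_iff₀ hppos]
      linarith
    have h5 : Real.log n ≤ Real.log x := by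
      refine Real.log_le_log hnpos ?_
      have : n ≤ x := by omega
      exact_mod_cast this
    have h6 : 2 * η * Real.log n ≤ 2 * η * Real.log x :=
      mul_le_mul_of_nonneg_left h5 (by positivity)
    nlinarith
  -- the lower bound
  have hv : ∀ q ∈ n.primeFactors, 0 ≤ (n.factorization q : ℝ) * Real.log q := fun q _ =>
    mul_nonneg (Nat.cast_nonneg _) (Real.log_natCast_nonneg q)
  have hq0n : q0 ∈ n.primeFactors := Nat.mem_primeFactors.mpr ⟨hq0, hq0p, by omega⟩
  have hq0v : Real.log q0 ≤ (n.factorization q0 : ℝ) * Real.log q0 := by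
    have h1 : 1 ≤ n.factorization q0 :=
      (hq0.dvd_iff_one_le_factorization (by omega)).mp hq0p
    have h2 : (1 : ℝ) ≤ n.factorization q0 := by exact_mod_cast h1
    have h3 := Real.log_natCast_nonneg q0
    nlinarith
  have hlogq0 : 5 * η / κ * Real.log x ≤ Real.log q0 := by
    rw [← Real.log_rpow hxpos]
    exact Real.log_le_log (Real.rpow_pos_of_pos hxpos _) hq0x.le
  have hkey : 5 * η * Real.log x ≤ (n.factorization q0 : ℝ) * Real.log q0 * (gg q0 - α + η) := by
    have h1 : κ ≤ gg q0 - α + η := by linarith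
    have h2 : 5 * η / κ * Real.log x * κ ≤
        (n.factorization q0 : ℝ) * Real.log q0 * (gg q0 - α + η) :=
      mul_le_mul (hlogq0.trans hq0v) h1 hκ.le (hv q0 hq0n)
    calc 5 * η * Real.log x = 5 * η / κ * Real.log x * κ := by field_simp
      _ ≤ _ := h2
  have hq0E : q0 ∉ E := fun h => by
    have := hE' q0 h
    linarith
  have e5 : 5 * η * Real.log x - 3 / 2 * wset E n ≤
      ∑ q ∈ n.primeFactors, (n.factorization q : ℝ) * Real.log q * (gg q - α + η) := by
    rw [← Finset.sum_inter_add_sum_sdiff n.primeFactors E]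
    have h1 : -(3 / 2 * wset E n) ≤
        ∑ q ∈ n.primeFactors ∩ E, (n.factorization q : ℝ) * Real.log q * (gg q - α + η) := by
      rw [wset, Finset.mul_sum, ← Finset.sum_neg_distrib]
      refine Finset.sum_le_sum (fun q hq => ?_)
      rw [Finset.mem_inter] at hq
      have h2 := hv q hq.1
      have h3 := (g2 q (Nat.prime_of_mem_primeFactors hq.1).two_le).1
      nlinarith
    have h2 : 5 * η * Real.log x ≤
        ∑ q ∈ n.primeFactors \ E, (n.factorization q : ℝ) * Real.log q * (gg q - α + η) := by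
      refine hkey.trans ?_
      refine Finset.single_le_sum (f := fun q => (n.factorization q : ℝ) * Real.log q *
        (gg q - α + η)) (fun q hq => ?_) (Finset.mem_sdiff.mpr ⟨hq0n, hq0E⟩)
      rw [Finset.mem_sdiff] at hq
      refine mul_nonneg (hv q hq.1) ?_
      by_contra h
      refine hq.2 (hE q (Nat.prime_of_mem_primeFactors hq.1) ?_ (by linarith))
      have := Nat.le_of_dvd (by omega) (Nat.dvd_of_mem_primeFactors hq.1)
      omega
    linarith
  have hηx : 0 < η * Real.log x := mul_pos hη hlogx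
  rw [e3] at e5
  linarith

theorem w1 (hFM : FM) (hGG : GGavg) : W1 := by
  classical
  intro α κ η θ hα hκ hκ1 hη hηκ hθ
  obtain ⟨C, hC1, hC⟩ := hFM
  have hC0 : 0 < C := by linarith
  -- parameters
  set v1 : ℝ := min (1 / 4) (θ * η / (4 * C)) with hv1
  have hv1pos : 0 < v1 := lt_min (by norm_num) (by positivity)
  have hv1le : v1 ≤ 1 / 4 := min_le_left _ _
  have hv1le' : v1 ≤ θ * η / (4 * C) := min_le_right _ _
  set ε : ℝ := v1 * (θ * η / (4 * C)) with hε
  have hεpos : 0 < ε := by positivity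
  obtain ⟨Y0, hY0⟩ := hC v1 hv1pos hv1le
  have hsmall := hα.below (α - η) (by linarith)
  obtain ⟨X1, hX1⟩ := hsmall (ε / 8) (by positivity)
  -- large `x`
  have hev1 : ∀ᶠ x : ℕ in Filter.atTop, max 2 (X1 : ℝ) ≤ (x : ℝ) ^ v1 :=
    ((tendsto_rpow_atTop hv1pos).comp tendsto_natCast_atTop_atTop).eventually_ge_atTop _
  have hev2 : ∀ᶠ x : ℕ in Filter.atTop, 32 / η ≤ Real.log x :=
    (Real.tendsto_log_atTop.comp tendsto_natCast_atTop_atTop).eventually_ge_atTop _
  obtain ⟨X2, hX2⟩ := Filter.eventually_atTop.mp (hev1.and hev2)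
  refine ⟨max (max Y0 X2) 100, ?_⟩
  intro x S hx hS
  have hxY : Y0 ≤ x := le_trans (le_max_left _ _) (le_trans (le_max_left _ _) hx)
  have hxX2 : X2 ≤ x := le_trans (le_max_right _ _) (le_trans (le_max_left _ _) hx)
  have hx100 : 100 ≤ x := le_trans (le_max_right _ _) hx
  obtain ⟨hw2, hlog⟩ := hX2 x hxX2
  have hxpos : (0 : ℝ) < x := by positivity
  have hx1 : (1 : ℝ) ≤ x := by exact_mod_cast (by omega : 1 ≤ x)
  have hlogx : 0 < Real.log x := Real.log_pos (by exact_mod_cast (by omega : 1 < x))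
  have hlogx1 : 1 ≤ Real.log x := by
    rw [Real.le_log_iff_exp_le hxpos]
    have h1 := Real.exp_one_lt_d9
    have h2 : (100 : ℝ) ≤ x := by exact_mod_cast hx100
    linarith
  set E : Finset ℕ := (Finset.Icc 1 x).filter (fun q => q.Prime ∧ gg q < α - η) with hEdef
  have hE : ∀ q : ℕ, q.Prime → q ≤ x → gg q < α - η → q ∈ E := fun q h1 h2 h3 =>
    Finset.mem_filter.mpr ⟨Finset.mem_Icc.mpr ⟨h1.one_lt.le, h2⟩, h1, h3⟩
  have hE' : ∀ q ∈ E, gg q < α - η := fun q hq => (Finset.mem_filter.mp hq).2.2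
  -- Markov
  have hM1 : (S.card : ℝ) * (η * Real.log x) ≤
      ∑ p ∈ (Finset.Ioc (x / 2) x).filter Nat.Prime, wset E (p - 1) := by
    have hSsub : S ⊆ (Finset.Ioc (x / 2) x).filter Nat.Prime := fun p hp => by
      obtain ⟨h1, h2, h3, -⟩ := hS p hp
      exact Finset.mem_filter.mpr ⟨Finset.mem_Ioc.mpr ⟨h2, h3⟩, h1⟩
    have hnn : ∀ p ∈ (Finset.Ioc (x / 2) x).filter Nat.Prime, 0 ≤ wset E (p - 1) := by
      intro p _
      exact Finset.sum_nonneg (fun q _ =>
        mul_nonneg (Nat.cast_nonneg _) (Real.log_natCast_nonneg q))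
    calc (S.card : ℝ) * (η * Real.log x) = ∑ p ∈ S, η * Real.log x := by
          rw [Finset.sum_const, nsmul_eq_mul]
      _ ≤ ∑ p ∈ S, wset E (p - 1) := by
          refine Finset.sum_le_sum (fun p hp => ?_)
          obtain ⟨h1, h2, h3, h4, q, hq1, hq2, hq3, hq4⟩ := hS p hp
          have hp5 : 5 ≤ p := by omega
          refine wset_ge hGG hα.le hκ hκ1 hη hηκ E hE hE' h1 hp5 h3 h4 hq1 hq2 hq3 hq4 ?_
          have h5 : 32 ≤ η * Real.log x := by
            rw [div_le_iff₀ hη] at hlog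
            linarith
          have h6 : (1 : ℝ) ≤ p := by exact_mod_cast h1.one_lt.le
          nlinarith
      _ ≤ _ := Finset.sum_le_sum_of_subset_of_nonneg hSsub (fun p hp _ => hnn p hp)
  -- FM
  have hw : (2 : ℝ) ≤ (x : ℝ) ^ v1 := le_trans (le_max_left _ _) hw2
  have hwX : (X1 : ℝ) ≤ (x : ℝ) ^ v1 := le_trans (le_max_right _ _) hw2
  have hwle : (x : ℝ) ^ v1 ≤ (x : ℝ) ^ ((1 : ℝ) / 2) :=
    Real.rpow_le_rpow_of_exponent_le hx1 (by linarith)
  have hM2 := hY0 x E ((x : ℝ) ^ v1) hxY hw hwle (fun q hq => (Finset.mem_filter.mp hq).2.1)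
  have hsum : ∑ q ∈ E, (if (x : ℝ) ^ v1 < (q : ℝ) ∧ q ≤ x then Real.log q / q else 0) ≤
      ε * Real.log x := by
    rw [← Finset.sum_filter]
    have h1 := dyadic_sum (fun q => gg q < α - η) (ε / 8) (by positivity) X1 hX1 x
      (E.filter (fun q => (x : ℝ) ^ v1 < (q : ℝ) ∧ q ≤ x)) (fun q hq => by
        rw [Finset.mem_filter] at hq
        refine ⟨(Finset.mem_filter.mp hq.1).2.1, (Finset.mem_filter.mp hq.1).2.2, ?_, hq.2.2⟩
        have : (X1 : ℝ) ≤ q := hwX.trans hq.2.1.le
        exact_mod_cast this)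
    refine h1.trans ?_
    have hl2 : 0.6931471803 < Real.log 2 := Real.log_two_gt_d9
    have h2 : Real.log x / Real.log 2 ≤ 2 * Real.log x := by
      rw [div_le_iff₀ (by linarith)]
      nlinarith
    nlinarith
  have hlogw : Real.log ((x : ℝ) ^ v1) / Real.log x = v1 := by
    rw [Real.log_rpow hxpos]
    field_simp
  rw [hlogw] at hM2
  have hM3 : C * x * (v1 + v1 + 1 / (v1 * Real.log x) *
      ∑ q ∈ E, (if (x : ℝ) ^ v1 < (q : ℝ) ∧ q ≤ x then Real.log q / q else 0)) ≤
      3 / 4 * (θ * η) * x := by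
    have h1 : 1 / (v1 * Real.log x) *
        ∑ q ∈ E, (if (x : ℝ) ^ v1 < (q : ℝ) ∧ q ≤ x then Real.log q / q else 0) ≤
        θ * η / (4 * C) := by
      calc _ ≤ 1 / (v1 * Real.log x) * (ε * Real.log x) :=
            mul_le_mul_of_nonneg_left hsum (by positivity)
        _ = θ * η / (4 * C) := by
            rw [hε]; field_simp
    have h2 : v1 + v1 + 1 / (v1 * Real.log x) *
        ∑ q ∈ E, (if (x : ℝ) ^ v1 < (q : ℝ) ∧ q ≤ x then Real.log q / q else 0) ≤
        3 * (θ * η / (4 * C)) := by linarith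
    calc _ ≤ C * x * (3 * (θ * η / (4 * C))) :=
          mul_le_mul_of_nonneg_left h2 (by positivity)
      _ = 3 / 4 * (θ * η) * x := by field_simp
  have hfin : (S.card : ℝ) * (η * Real.log x) ≤ θ * η * x := by
    have h0 : 0 ≤ θ * η * x := by positivity
    have := hM1.trans (hM2.trans hM3)
    nlinarith
  have h1 : (S.card : ℝ) ≤ θ * η * x / (η * Real.log x) := by
    rw [le_div_iff₀ (by positivity)]
    exact hfin
  calc (S.card : ℝ) ≤ θ * η * x / (η * Real.log x) := h1
    _ = θ * (x / Real.log x) := by field_simp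

end

end Pool.Agent.Helper83.TOT
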